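import Pool.Agent.H32.RK.TargetsA

/-!
# Row AQD: for most pairs over a finite ring the density is at least one half
-/

set_option autoImplicit false

namespace Pool.Agent.H4.RK

open Finset NumberField Pool.Agent.H32.RQ Pool.Agent.H32.RK

section

variable {s : ℕ} {R : Type} [CommRing R] [Fintype R]

open Classical in
/-- the forms which vanish at `x` -/
noncomputable def ze (x : Fin s → R) : Finset (Mon s → R) := univ.filter fun f => qf f x = 0

open Classical in
/-- the forms which vanish at `x` and `y` -/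
noncomputable def ze2 (x y : Fin s → R) : Finset (Mon s → R) :=
  univ.filter fun f => qf f x = 0 ∧ qf f y = 0

open Classical in
/-- the primitive vectors -/
noncomputable def PX (s : ℕ) (R : Type) [CommRing R] [Fintype R] : Finset (Fin s → R) :=
  univ.filter fun x : Fin s → R => Prm x

open Classical in
/-- the indicator of the zeros -/
noncomputable def iz (F : Fin 2 → Mon s → R) (x : Fin s → R) : ℝ :=
  if ∀ i, qf (F i) x = 0 then 1 else 0

theorem am_eq (F : Fin 2 → Mon s → R) :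
    (Pool.Agent.H32.RK.am F : ℝ) = ∑ x ∈ PX s R, iz F x := by
  classical
  have h : Pool.Agent.H32.RK.am F = ((PX s R).filter fun x => ∀ i, qf (F i) x = 0).card := by
    unfold Pool.Agent.H32.RK.am PX
    rw [Nat.card_eq_fintype_card, Fintype.card_subtype]
    congr 1
    ext x
    simp only [mem_filter, mem_univ, true_and]
  rw [h, card_filter]
  push_cast
  refine sum_congr rfl fun x _ => ?_
  unfold iz
  by_cases h : ∀ i, qf (F i) x = 0
  · simp only [if_pos h]
  · simp only [if_neg h]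

theorem sum_iz (x : Fin s → R) :
    ∑ F : Fin 2 → Mon s → R, iz F x = ((ze x).card : ℝ) ^ 2 := by
  classical
  have h1 : (univ.filter fun F : Fin 2 → Mon s → R => ∀ i, qf (F i) x = 0) =
      Fintype.piFinset (fun _ : Fin 2 => ze x) := by
    ext F
    unfold ze
    simp only [mem_filter, mem_univ, true_and, Fintype.mem_piFinset]
  have h2 : ∑ F : Fin 2 → Mon s → R, iz F x =
      ((univ.filter fun F : Fin 2 → Mon s → R => ∀ i, qf (F i) x = 0).card : ℝ) := by
    rw [card_filter]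
    push_cast
    refine sum_congr rfl fun F _ => ?_
    unfold iz
    by_cases h : ∀ i, qf (F i) x = 0
    · simp only [if_pos h]
    · simp only [if_neg h]
  rw [h2, h1, Fintype.card_piFinset_const, Nat.cast_pow]

theorem sum_iz2 (x y : Fin s → R) :
    ∑ F : Fin 2 → Mon s → R, iz F x * iz F y = ((ze2 x y).card : ℝ) ^ 2 := by
  classical
  have h1 : (univ.filter fun F : Fin 2 → Mon s → R =>
      (∀ i, qf (F i) x = 0) ∧ ∀ i, qf (F i) y = 0) =
      Fintype.piFinset (fun _ : Fin 2 => ze2 x y) := by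
    ext F
    unfold ze2
    simp only [mem_filter, mem_univ, true_and, Fintype.mem_piFinset]
    exact ⟨fun h i => ⟨h.1 i, h.2 i⟩, fun h => ⟨fun i => (h i).1, fun i => (h i).2⟩⟩
  have h2 : ∑ F : Fin 2 → Mon s → R, iz F x * iz F y =
      ((univ.filter fun F : Fin 2 → Mon s → R =>
        (∀ i, qf (F i) x = 0) ∧ ∀ i, qf (F i) y = 0).card : ℝ) := by
    rw [card_filter]
    push_cast
    refine sum_congr rfl fun F _ => ?_
    unfold iz
    by_cases h : ∀ i, qf (F i) x = 0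
    · by_cases h' : ∀ i, qf (F i) y = 0
      · rw [if_pos h, if_pos h', if_pos ⟨h, h'⟩, one_mul]
      · have h3 : ¬ ((∀ i, qf (F i) x = 0) ∧ ∀ i, qf (F i) y = 0) := fun h2 => h' h2.2
        rw [if_pos h, if_neg h', if_neg h3, mul_zero]
    · have h3 : ¬ ((∀ i, qf (F i) x = 0) ∧ ∀ i, qf (F i) y = 0) := fun h2 => h h2.1
      rw [if_neg h, if_neg h3, zero_mul]
  rw [h2, h1, Fintype.card_piFinset_const, Nat.cast_pow]

end

theorem pf_AQD (hAQA : T_AQA) (hAQB : T_AQB) (hAQC : T_AQC) : T_AQD := by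
  classical
  intro R _ _ s 𝒥 hs h𝒥
  have : Fintype R := Fintype.ofFinite R
  have hfq : ∀ I : Ideal R, Finite (R ⧸ I) := fun I =>
    Finite.of_surjective _ Ideal.Quotient.mk_surjective
  have hqpos : ∀ I : Ideal R, (1 : ℝ) ≤ Nat.card (R ⧸ I) := by
    intro I
    have := hfq I
    have h1 : 0 < Nat.card (R ⧸ I) := Nat.card_pos
    exact_mod_cast h1
  obtain ⟨M, hMd⟩ : ∃ M : ℕ, M = Nat.card R := ⟨_, rfl⟩
  have hMf : Fintype.card R = M := by rw [hMd, Nat.card_eq_fintype_card]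
  have hM0 : 0 < M := by rw [hMd]; exact Nat.card_pos
  have hM : (0 : ℝ) < M := by exact_mod_cast hM0
  rw [← hMd]
  obtain ⟨B, hB⟩ : ∃ B : ℝ, B = (M : ℝ) ^ md s := ⟨_, rfl⟩
  have hB0 : 0 < B := by rw [hB]; positivity
  obtain ⟨A, hA⟩ : ∃ A : ℝ, A = (M : ℝ) ^ (s - 2) := ⟨_, rfl⟩
  have hA0 : 0 < A := by rw [hA]; positivity
  have hMs : (M : ℝ) ^ s = A * (M : ℝ) ^ 2 := by
    rw [hA, ← pow_add]
    congr 1
    omega
  -- cardinalities
  have c2 : ∀ x y : Fin s → R, Prm x → Prm y →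
      ((ze2 x y).card : ℝ) ≤ B / (M : ℝ) ^ 2 * (Nat.card (R ⧸ gi x y) : ℝ) := by
    intro x y hx hy
    have h1 := (hAQA R s x y hx hy).2
    have h2 : Nat.card {f : Mon s → R // qf f x = 0 ∧ qf f y = 0} = (ze2 x y).card := by
      unfold ze2
      rw [Nat.card_eq_fintype_card, Fintype.card_subtype]
    rw [h2, ← hMd] at h1
    have h3 : ((ze2 x y).card : ℝ) * (M : ℝ) ^ 2 ≤ B * (Nat.card (R ⧸ gi x y) : ℝ) := by
      rw [hB]
      exact_mod_cast h1
    rw [div_mul_eq_mul_div, le_div_iff₀ (by positivity)]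
    exact h3
  have c1 : ∀ x : Fin s → R, Prm x → ((ze x).card : ℝ) = B / M := by
    intro x hx
    have h1 := (hAQA R s x x hx hx).1
    have h2 : Nat.card {f : Mon s → R // qf f x = 0} = (ze x).card := by
      unfold ze
      rw [Nat.card_eq_fintype_card, Fintype.card_subtype]
    rw [h2, ← hMd] at h1
    have h3 : ((ze x).card : ℝ) * M = B := by
      rw [hB]
      exact_mod_cast h1
    rw [eq_div_iff hM.ne']
    exact h3
  -- the first moment
  have m1 : ∑ F : Fin 2 → Mon s → R, (Pool.Agent.H32.RK.am F : ℝ) =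
      ((PX s R).card : ℝ) * (B / M) ^ 2 := by
    rw [sum_congr rfl fun F _ => am_eq F, sum_comm]
    rw [sum_congr rfl fun x hx => by
      rw [sum_iz x, c1 x (mem_filter.1 hx).2]]
    rw [sum_const, nsmul_eq_mul]
  -- the second moment
  obtain ⟨H, hH⟩ : ∃ H : ℝ, H = ∑ I ∈ 𝒥, (Nat.card (R ⧸ I) : ℝ) ^ 3 /
    (Nat.card (R ⧸ I) : ℝ) ^ s := ⟨_, rfl⟩
  obtain ⟨P, hP⟩ : ∃ P : ℝ, P = ∑ I ∈ 𝒥.erase ⊤, 1 / (Nat.card (R ⧸ I) : ℝ) ^ s := ⟨_, rfl⟩
  obtain ⟨T, hT⟩ : ∃ T : ℝ, T = ∑ I ∈ 𝒥.erase ⊤, 1 / (Nat.card (R ⧸ I) : ℝ) ^ 3 := ⟨_, rfl⟩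
  rw [← hT]
  have hH0 : 0 ≤ H := by
    rw [hH]
    exact sum_nonneg fun h _ => by positivity
  have hall : (Fintype.card (Fin s → R) : ℝ) = (M : ℝ) ^ s := by
    rw [Fintype.card_fun, hMf, Fintype.card_fin]
    push_cast
    rfl
  have hPX : ((PX s R).card : ℝ) ≤ (M : ℝ) ^ s := by
    rw [← hall]
    exact_mod_cast card_le_univ _
  have m2 : ∑ F : Fin 2 → Mon s → R, (Pool.Agent.H32.RK.am F : ℝ) ^ 2 ≤ B ^ 2 * A ^ 2 * H := by
    have e1 : ∑ F : Fin 2 → Mon s → R, (Pool.Agent.H32.RK.am F : ℝ) ^ 2 =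
        ∑ x ∈ PX s R, ∑ y ∈ PX s R, ((ze2 x y).card : ℝ) ^ 2 := by
      have e2 : ∀ F : Fin 2 → Mon s → R, (Pool.Agent.H32.RK.am F : ℝ) ^ 2 =
          ∑ x ∈ PX s R, ∑ y ∈ PX s R, iz F x * iz F y := by
        intro F
        rw [am_eq, sq, sum_mul_sum]
      rw [sum_congr rfl fun F _ => e2 F, sum_comm]
      refine sum_congr rfl fun x _ => ?_
      rw [sum_comm]
      exact sum_congr rfl fun y _ => sum_iz2 x y
    rw [e1]
    calc ∑ x ∈ PX s R, ∑ y ∈ PX s R, ((ze2 x y).card : ℝ) ^ 2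
        ≤ ∑ x ∈ PX s R, (B / (M : ℝ) ^ 2) ^ 2 *
            ∑ y ∈ PX s R, (Nat.card (R ⧸ gi x y) : ℝ) ^ 2 := by
          refine sum_le_sum fun x hx => ?_
          rw [mul_sum]
          refine sum_le_sum fun y hy => ?_
          rw [← mul_pow]
          exact pow_le_pow_left₀ (by positivity)
            (c2 x y (mem_filter.1 hx).2 (mem_filter.1 hy).2) 2
      _ ≤ ∑ x ∈ PX s R, (B / (M : ℝ) ^ 2) ^ 2 * ((M : ℝ) ^ s * H) := by
          refine sum_le_sum fun x hx => mul_le_mul_of_nonneg_left ?_ (by positivity)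
          have h1 := hAQB R s x 𝒥 (mem_filter.1 hx).2 h𝒥
          rw [hH]
          rw [← hMd] at h1
          refine le_trans (le_of_eq ?_) h1
          unfold PX
          congr 1
      _ = ((PX s R).card : ℝ) * ((B / (M : ℝ) ^ 2) ^ 2 * ((M : ℝ) ^ s * H)) := by
          rw [sum_const, nsmul_eq_mul]
      _ ≤ (M : ℝ) ^ s * ((B / (M : ℝ) ^ 2) ^ 2 * ((M : ℝ) ^ s * H)) :=
          mul_le_mul_of_nonneg_right hPX (by positivity)
      _ = B ^ 2 * A ^ 2 * H := by
          rw [hMs]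
          field_simp
  -- the number of the primitive vectors
  have m3 : B ^ 2 * A * (1 - P) ≤ ∑ F : Fin 2 → Mon s → R, (Pool.Agent.H32.RK.am F : ℝ) := by
    rw [m1]
    have h1 := hAQC R s 𝒥 h𝒥
    rw [← hP, ← hMd] at h1
    have h3 : Nat.card {x : Fin s → R // ¬ Prm x} = (univ.filter fun x : Fin s → R => ¬ Prm x).card := by
      rw [Nat.card_eq_fintype_card, Fintype.card_subtype]
    have h4 : (PX s R).card + (univ.filter fun x : Fin s → R => ¬ Prm x).card =
        Fintype.card (Fin s → R) := by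
      have h5 := Finset.card_filter_add_card_filter_not (s := (univ : Finset (Fin s → R)))
        (fun x : Fin s → R => Prm x)
      rw [← card_univ, ← h5]
      unfold PX
      congr 1
    have h5 : ((PX s R).card : ℝ) + ((univ.filter fun x : Fin s → R => ¬ Prm x).card : ℝ) =
        (M : ℝ) ^ s := by
      rw [← hall]
      exact_mod_cast h4
    rw [h3] at h1
    have h2 : (M : ℝ) ^ s * (1 - P) ≤ ((PX s R).card : ℝ) := by
      linarith
    calc B ^ 2 * A * (1 - P) = (M : ℝ) ^ s * (1 - P) * (B / M) ^ 2 := by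
          rw [hMs]
          field_simp
      _ ≤ ((PX s R).card : ℝ) * (B / M) ^ 2 := mul_le_mul_of_nonneg_right h2 (by positivity)
  -- the ideals
  have htop : (Nat.card (R ⧸ (⊤ : Ideal R)) : ℝ) = 1 := by
    have h1 : Subsingleton (R ⧸ (⊤ : Ideal R)) := Ideal.Quotient.subsingleton_iff.2 rfl
    have h2 : Nat.card (R ⧸ (⊤ : Ideal R)) = 1 := Nat.card_of_subsingleton 0
    exact_mod_cast h2
  have hH1 : H ≤ 1 + T := by
    rw [hH, ← add_sum_erase _ _ (h𝒥 ⊤), hT]
    refine add_le_add ?_ ?_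
    · rw [htop]
      simp
    · refine sum_le_sum fun I _ => ?_
      have h3 := hqpos I
      rw [div_le_div_iff₀ (by positivity) (by positivity), one_mul, ← pow_add]
      exact pow_le_pow_right₀ h3 (by omega)
  have hP1 : P ≤ T := by
    rw [hP, hT]
    refine sum_le_sum fun I _ => ?_
    have h3 := hqpos I
    exact one_div_le_one_div_of_le (by positivity) (pow_le_pow_right₀ h3 (by omega))
  -- the variance
  have hcard : ∑ _F : Fin 2 → Mon s → R, A ^ 2 = B ^ 2 * A ^ 2 := by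
    rw [sum_const, nsmul_eq_mul, card_univ, Fintype.card_fun, Fintype.card_fun, hMf,
      Fintype.card_fin, hB]
    push_cast
    ring
  have var : ∑ F : Fin 2 → Mon s → R, ((Pool.Agent.H32.RK.am F : ℝ) - A) ^ 2 ≤
      B ^ 2 * A ^ 2 * (3 * T) := by
    have e1 : ∑ F : Fin 2 → Mon s → R, ((Pool.Agent.H32.RK.am F : ℝ) - A) ^ 2 =
        ∑ F : Fin 2 → Mon s → R, (Pool.Agent.H32.RK.am F : ℝ) ^ 2 -
          2 * A * ∑ F : Fin 2 → Mon s → R, (Pool.Agent.H32.RK.am F : ℝ) + B ^ 2 * A ^ 2 := by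
      rw [← hcard, mul_sum, ← sum_sub_distrib, ← sum_add_distrib]
      exact sum_congr rfl fun F _ => by ring
    rw [e1]
    have h1 : 2 * A * (B ^ 2 * A * (1 - P)) ≤
        2 * A * ∑ F : Fin 2 → Mon s → R, (Pool.Agent.H32.RK.am F : ℝ) :=
      mul_le_mul_of_nonneg_left m3 (by positivity)
    have h2 : B ^ 2 * A ^ 2 * (H - 1 + 2 * P) ≤ B ^ 2 * A ^ 2 * (3 * T) := by
      refine mul_le_mul_of_nonneg_left ?_ (by positivity)
      linarith
    have h4 : B ^ 2 * A ^ 2 * H - 2 * A * (B ^ 2 * A * (1 - P)) + B ^ 2 * A ^ 2 =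
        B ^ 2 * A ^ 2 * (H - 1 + 2 * P) := by ring
    linarith
  -- Chebyshev
  obtain ⟨Z, hZ⟩ : ∃ Z : Finset (Fin 2 → Mon s → R),
    Z = univ.filter fun F : Fin 2 → Mon s → R =>
      2 * Pool.Agent.H32.RK.am F < M ^ (s - 2) := ⟨_, rfl⟩
  have hZc : (Nat.card {F : Fin 2 → Mon s → R //
      2 * Pool.Agent.H32.RK.am F < M ^ (s - 2)} : ℝ) = (Z.card : ℝ) := by
    rw [hZ, Nat.card_eq_fintype_card, Fintype.card_subtype]
  rw [hZc]
  have h5 : (Z.card : ℝ) * (A ^ 2 / 4) ≤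
      ∑ F : Fin 2 → Mon s → R, ((Pool.Agent.H32.RK.am F : ℝ) - A) ^ 2 := by
    calc (Z.card : ℝ) * (A ^ 2 / 4) = ∑ _F ∈ Z, A ^ 2 / 4 := by rw [sum_const, nsmul_eq_mul]
      _ ≤ ∑ F ∈ Z, ((Pool.Agent.H32.RK.am F : ℝ) - A) ^ 2 := by
          refine sum_le_sum fun F hF => ?_
          rw [hZ, mem_filter] at hF
          have h6 : 2 * (Pool.Agent.H32.RK.am F : ℝ) < A := by
            rw [hA]
            exact_mod_cast hF.2
          nlinarith
      _ ≤ ∑ F : Fin 2 → Mon s → R, ((Pool.Agent.H32.RK.am F : ℝ) - A) ^ 2 :=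
          sum_le_sum_of_subset_of_nonneg (subset_univ _) fun _ _ _ => sq_nonneg _
  have h7 : (Z.card : ℝ) * (A ^ 2 / 4) ≤ B ^ 2 * A ^ 2 * (3 * T) := h5.trans var
  have h8 : (M : ℝ) ^ (2 * md s) = B ^ 2 := by
    rw [hB, ← pow_mul, mul_comm]
  rw [h8]
  have h9 : (Z.card : ℝ) * (A ^ 2 / 4) ≤ 12 * B ^ 2 * T * (A ^ 2 / 4) := by
    refine h7.trans (le_of_eq ?_)
    ring
  exact le_of_mul_le_mul_right h9 (by positivity)

end Pool.Agent.H4.RK
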