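import Pool.Agent.H32.RK.TargetsA
import Pool.Agent.H32.RQ.All

/-!
# Row VAR: the second moment of the difference, over a number field
-/

set_option autoImplicit false

open Finset NumberField Pool.Agent.H32.RQ Pool.Agent.H32.RK

namespace Pool.Agent.H4.RK

open Pool.Agent.H1.RQ (sum_prod_pi e_sum ind_eq)

section

variable {A : Type} [Fintype A]

/-- the Fourier expansion of the difference, for one vector -/
theorem diff_eq (q : ℝ) (E : A → A → ℂ) (κ l d : A → ℝ)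
    (hd : ∀ v, (d v : ℂ) = (q : ℂ) * ∑ j, E j v)
    (hl : ∀ v, (l v : ℂ) = (q : ℂ) * ∑ j, (κ j : ℂ) * E j v) (v : Fin 2 → A) :
    ((∏ i, d (v i) - ∏ i, l (v i) : ℝ) : ℂ) =
      (q : ℂ) ^ 2 * ∑ j : Fin 2 → A, ((1 - ∏ i, κ (j i) : ℝ) : ℂ) * ∏ i, E (j i) (v i) := by
  have h1 : ((∏ i, d (v i) : ℝ) : ℂ) =
      (q : ℂ) ^ 2 * ∑ j : Fin 2 → A, ∏ i, E (j i) (v i) := by
    rw [Complex.ofReal_prod, Finset.prod_congr rfl fun i _ => hd (v i), Finset.prod_mul_distrib,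
      Finset.prod_const, Finset.card_univ, Fintype.card_fin,
      sum_prod_pi fun (i : Fin 2) (a : A) => E a (v i)]
  have h3 : ((∏ i, l (v i) : ℝ) : ℂ) = (q : ℂ) ^ 2 * ∑ j : Fin 2 → A,
      (∏ i, (κ (j i) : ℂ)) * ∏ i, E (j i) (v i) := by
    rw [Complex.ofReal_prod, Finset.prod_congr rfl fun i _ => hl (v i), Finset.prod_mul_distrib,
      Finset.prod_const, Finset.card_univ, Fintype.card_fin,
      ← sum_prod_pi fun (i : Fin 2) (a : A) => (κ a : ℂ) * E a (v i)]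
    congr 1
    exact Finset.sum_congr rfl fun j _ => Finset.prod_mul_distrib
  rw [Complex.ofReal_sub, h1, h3, ← mul_sub, ← Finset.sum_sub_distrib]
  congr 1
  refine Finset.sum_congr rfl fun j _ => ?_
  push_cast
  ring

/-- the second moment, abstract form -/
theorem abs_var {X Φ : Type} [Fintype Φ] (S : Finset X) (q c : ℝ) (E : A → A → ℂ)
    (κ l d : A → ℝ) (g : Φ → ℝ) (val : X → Φ → A) (R : X → X → A → A → ℝ)
    (hd : ∀ v, (d v : ℂ) = (q : ℂ) * ∑ j, E j v)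
    (hl : ∀ v, (l v : ℂ) = (q : ℂ) * ∑ j, (κ j : ℂ) * E j v)
    (hκ : ∀ j, 0 ≤ κ j ∧ κ j ≤ 1) (hR : ∀ x y j k, 0 ≤ R x y j k)
    (hE : ∀ x y j k, ∑ f, (g f : ℂ) * (E j (val x f) * E k (val y f)) =
      ((c * R x y j k : ℝ) : ℂ)) :
    ∑ F : Fin 2 → Φ, (∏ i, g (F i)) *
        (∑ x ∈ S, (∏ i, d (val x (F i)) - ∏ i, l (val x (F i)))) ^ 2 ≤
      c ^ 2 * ∑ x ∈ S, ∑ y ∈ S, 2 * (q ^ 2 * ∑ j, ∑ k, (1 - κ j) * R x y j k) *
        (q ^ 2 * ∑ j, ∑ k, R x y j k) := by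
  obtain ⟨u, hu⟩ : ∃ u : X → (Fin 2 → Φ) → ℝ, u = fun x F =>
      ∏ i, d (val x (F i)) - ∏ i, l (val x (F i)) := ⟨_, rfl⟩
  -- the coefficients
  obtain ⟨C, hC⟩ : ∃ C : (Fin 2 → A) → ℝ, C = fun j => 1 - ∏ i, κ (j i) := ⟨_, rfl⟩
  have hC1 : ∀ j, 0 ≤ C j := by
    intro j
    rw [hC]
    have := Finset.prod_le_one (s := Finset.univ) (f := fun i => κ (j i))
      (fun i _ => (hκ (j i)).1) (fun i _ => (hκ (j i)).2)
    simp only at this ⊢
    linarith
  have hC2 : ∀ j, C j ≤ 1 := by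
    intro j
    rw [hC]
    have := Finset.prod_nonneg (s := Finset.univ) (f := fun i => κ (j i))
      (fun i _ => (hκ (j i)).1)
    simp only at this ⊢
    linarith
  have hC3 : ∀ j, C j ≤ (1 - κ (j 0)) + (1 - κ (j 1)) := by
    intro j
    rw [hC]
    simp only [Fin.prod_univ_two]
    have h1 := hκ (j 0)
    have h2 := hκ (j 1)
    nlinarith
  -- the correlations
  have hcor : ∀ x y : X, ∑ F : Fin 2 → Φ, (∏ i, g (F i)) * (u x F * u y F) =
      c ^ 2 * (q ^ 4 * ∑ j : Fin 2 → A, ∑ k : Fin 2 → A, C j * C k *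
          ∏ i, R x y (j i) (k i)) := by
    intro x y
    have hxy : ∀ F : Fin 2 → Φ, (((∏ i, g (F i)) * (u x F * u y F) : ℝ) : ℂ) =
        (q : ℂ) ^ 4 * ∑ j : Fin 2 → A, ∑ k : Fin 2 → A, (C j : ℂ) * (C k : ℂ) *
          ∏ i, ((g (F i) : ℂ) * (E (j i) (val x (F i)) * E (k i) (val y (F i)))) := by
      intro F
      have e1 : ((u x F : ℝ) : ℂ) = (q : ℂ) ^ 2 * ∑ j : Fin 2 → A, (C j : ℂ) *
          ∏ i, E (j i) (val x (F i)) := by
        rw [hu, hC]
        exact diff_eq q E κ l d hd hl fun i => val x (F i)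
      have e2 : ((u y F : ℝ) : ℂ) = (q : ℂ) ^ 2 * ∑ j : Fin 2 → A, (C j : ℂ) *
          ∏ i, E (j i) (val y (F i)) := by
        rw [hu, hC]
        exact diff_eq q E κ l d hd hl fun i => val y (F i)
      rw [Complex.ofReal_mul, Complex.ofReal_mul, e1, e2, Complex.ofReal_prod]
      have e4 : ∀ (a b c d : ℂ), a * ((b ^ 2 * c) * (b ^ 2 * d)) = b ^ 4 * (a * (c * d)) := by
        intro a b c d
        ring
      rw [e4, Finset.sum_mul_sum, Finset.mul_sum]
      congr 1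
      refine Finset.sum_congr rfl fun j _ => ?_
      rw [Finset.mul_sum]
      refine Finset.sum_congr rfl fun k _ => ?_
      rw [Finset.prod_mul_distrib, Finset.prod_mul_distrib]
      ring
    have hsum : ((∑ F : Fin 2 → Φ, (∏ i, g (F i)) * (u x F * u y F) : ℝ) : ℂ) =
        ((c ^ 2 * (q ^ 4 * ∑ j : Fin 2 → A, ∑ k : Fin 2 → A, C j * C k *
            ∏ i, R x y (j i) (k i)) : ℝ) : ℂ) := by
      rw [Complex.ofReal_sum, Finset.sum_congr rfl fun F _ => hxy F, ← Finset.mul_sum,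
        Finset.sum_comm]
      have e6 : ∀ j : Fin 2 → A, ∑ F : Fin 2 → Φ, ∑ k : Fin 2 → A,
          (C j : ℂ) * (C k : ℂ) * ∏ i, ((g (F i) : ℂ) *
            (E (j i) (val x (F i)) * E (k i) (val y (F i)))) =
          ∑ k : Fin 2 → A, (C j : ℂ) * (C k : ℂ) *
            ((c ^ 2 * ∏ i, R x y (j i) (k i) : ℝ) : ℂ) := by
        intro j
        rw [Finset.sum_comm]
        refine Finset.sum_congr rfl fun k _ => ?_
        rw [← Finset.mul_sum]
        congr 1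
        rw [sum_prod_pi fun (i : Fin 2) (f : Φ) => (g f : ℂ) *
            (E (j i) (val x f) * E (k i) (val y f)),
          Finset.prod_congr rfl fun i _ => hE x y (j i) (k i),
          ← Complex.ofReal_prod, Finset.prod_mul_distrib, Finset.prod_const, Finset.card_univ,
          Fintype.card_fin]
      rw [Finset.sum_congr rfl fun j _ => e6 j]
      push_cast
      rw [Finset.mul_sum, Finset.mul_sum, Finset.mul_sum]
      refine Finset.sum_congr rfl fun j _ => ?_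
      rw [Finset.mul_sum, Finset.mul_sum, Finset.mul_sum]
      refine Finset.sum_congr rfl fun k _ => ?_
      ring
    exact_mod_cast hsum
  -- the bound of the correlations
  have hbound : ∀ x y : X, q ^ 4 * (∑ j : Fin 2 → A,
      ∑ k : Fin 2 → A, C j * C k * ∏ i, R x y (j i) (k i)) ≤
      2 * (q ^ 2 * ∑ j, ∑ k, (1 - κ j) * R x y j k) * (q ^ 2 * ∑ j, ∑ k, R x y j k) := by
    intro x y
    have hfac : ∀ g : Fin 2 → A → A → ℝ, ∑ j : Fin 2 → A,
        ∑ k : Fin 2 → A, ∏ i, g i (j i) (k i) = ∏ i, ∑ a, ∑ b, g i a b := by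
      intro g
      rw [Finset.sum_congr rfl fun j _ => sum_prod_pi fun (i : Fin 2) (b : A) => g i (j i) b,
        sum_prod_pi fun (i : Fin 2) (a : A) => ∑ b, g i a b]
    have h1 : ∑ j : Fin 2 → A, ∑ k : Fin 2 → A, C j * C k * ∏ i, R x y (j i) (k i) ≤
        ∑ j : Fin 2 → A, ∑ k : Fin 2 → A,
          (((1 - κ (j 0)) * R x y (j 0) (k 0)) * R x y (j 1) (k 1) +
            R x y (j 0) (k 0) * ((1 - κ (j 1)) * R x y (j 1) (k 1))) := by
      refine Finset.sum_le_sum fun j _ => Finset.sum_le_sum fun k _ => ?_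
      rw [Fin.prod_univ_two]
      have e1 : C j * C k ≤ (1 - κ (j 0)) + (1 - κ (j 1)) := by
        calc C j * C k ≤ C j * 1 := mul_le_mul_of_nonneg_left (hC2 k) (hC1 j)
          _ = C j := mul_one _
          _ ≤ _ := hC3 j
      have e2 : 0 ≤ R x y (j 0) (k 0) * R x y (j 1) (k 1) := mul_nonneg (hR _ _ _ _) (hR _ _ _ _)
      calc C j * C k * (R x y (j 0) (k 0) * R x y (j 1) (k 1)) ≤
            ((1 - κ (j 0)) + (1 - κ (j 1))) * (R x y (j 0) (k 0) * R x y (j 1) (k 1)) :=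
            mul_le_mul_of_nonneg_right e1 e2
        _ = _ := by ring
    obtain ⟨g₁, hg₁⟩ : ∃ g₁ : Fin 2 → A → A → ℝ,
        g₁ = fun i a b => if i = 0 then (1 - κ a) * R x y a b else R x y a b := ⟨_, rfl⟩
    obtain ⟨g₂, hg₂⟩ : ∃ g₂ : Fin 2 → A → A → ℝ,
        g₂ = fun i a b => if i = 0 then R x y a b else (1 - κ a) * R x y a b := ⟨_, rfl⟩
    have h2 : ∑ j : Fin 2 → A, ∑ k : Fin 2 → A,
          (((1 - κ (j 0)) * R x y (j 0) (k 0)) * R x y (j 1) (k 1) +
            R x y (j 0) (k 0) * ((1 - κ (j 1)) * R x y (j 1) (k 1))) =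
        ∑ j : Fin 2 → A, ∑ k : Fin 2 → A, ∏ i, g₁ i (j i) (k i) +
          ∑ j : Fin 2 → A, ∑ k : Fin 2 → A, ∏ i, g₂ i (j i) (k i) := by
      rw [← Finset.sum_add_distrib]
      refine Finset.sum_congr rfl fun j _ => ?_
      rw [← Finset.sum_add_distrib]
      refine Finset.sum_congr rfl fun k _ => ?_
      rw [Fin.prod_univ_two, Fin.prod_univ_two, hg₁, hg₂]
      simp
    rw [hfac g₁, hfac g₂, Fin.prod_univ_two, Fin.prod_univ_two] at h2
    have h3 : ∑ a, ∑ b, g₁ 0 a b = ∑ a, ∑ b, (1 - κ a) * R x y a b := by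
      rw [hg₁]
      simp
    have h4 : ∑ a, ∑ b, g₁ 1 a b = ∑ a, ∑ b, R x y a b := by
      rw [hg₁]
      simp
    have h5 : ∑ a, ∑ b, g₂ 0 a b = ∑ a, ∑ b, R x y a b := by
      rw [hg₂]
      simp
    have h6 : ∑ a, ∑ b, g₂ 1 a b = ∑ a, ∑ b, (1 - κ a) * R x y a b := by
      rw [hg₂]
      simp
    rw [h3, h4, h5, h6] at h2
    have h7 : 2 * (q ^ 2 * ∑ j, ∑ k, (1 - κ j) * R x y j k) * (q ^ 2 * ∑ j, ∑ k, R x y j k) =
        q ^ 4 * ((∑ a, ∑ b, (1 - κ a) * R x y a b) * (∑ a, ∑ b, R x y a b) +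
          (∑ a, ∑ b, R x y a b) * ∑ a, ∑ b, (1 - κ a) * R x y a b) := by
      ring
    rw [h7]
    refine mul_le_mul_of_nonneg_left ?_ (by positivity)
    rw [← h2]
    exact h1
  -- conclusion
  have hLHS : ∑ F : Fin 2 → Φ, (∏ i, g (F i)) *
        (∑ x ∈ S, (∏ i, d (val x (F i)) - ∏ i, l (val x (F i)))) ^ 2 =
      ∑ x ∈ S, ∑ y ∈ S, ∑ F : Fin 2 → Φ, (∏ i, g (F i)) * (u x F * u y F) := by
    have e1 : ∀ F : Fin 2 → Φ, (∏ i, g (F i)) *
        (∑ x ∈ S, (∏ i, d (val x (F i)) - ∏ i, l (val x (F i)))) ^ 2 =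
        ∑ x ∈ S, ∑ y ∈ S, (∏ i, g (F i)) * (u x F * u y F) := by
      intro F
      rw [sq, Finset.sum_mul_sum, Finset.mul_sum]
      refine Finset.sum_congr rfl fun x _ => ?_
      rw [Finset.mul_sum, hu]
    rw [Finset.sum_congr rfl fun F _ => e1 F, Finset.sum_comm]
    refine Finset.sum_congr rfl fun x _ => ?_
    rw [Finset.sum_comm]
  rw [hLHS, Finset.mul_sum]
  refine Finset.sum_le_sum fun x _ => ?_
  rw [Finset.mul_sum]
  refine Finset.sum_le_sum fun y _ => ?_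
  rw [hcor x y]
  exact mul_le_mul_of_nonneg_left (hbound x y) (by positivity)

end

theorem pf_VAR (K : Type) [Field K] [NumberField K] (hEXF : T_EXF K) : T_VAR K := by
  intro ι _ _ ω s Q J W T _ S hJ hQ hW hWQ hTQ hWT
  have hκ := (All.x_KPB Q W T hW hWQ hTQ hWT).1
  have hl := All.x_KPL Q W T hW hWQ hTQ hWT
  have htri := (All.x_FJB Q J hJ).2.1
  have hQ0 : (0 : ℝ) < Q := by exact_mod_cast Nat.pos_of_ne_zero (NeZero.ne Q)
  obtain ⟨q, hq⟩ : ∃ q : ℝ, q = ((Q : ℝ) ^ Fintype.card ι)⁻¹ := ⟨_, rfl⟩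
  obtain ⟨E, hEd⟩ : ∃ E : (ι → ZMod Q) → (ι → ZMod Q) → ℂ,
    E = fun j v => ZMod.stdAddChar (∑ m, j m * v m) := ⟨_, rfl⟩
  have hEp : ∀ j v, E j v = ∏ m, (ZMod.stdAddChar (j m * v m) : ℂ) := by
    intro j v
    rw [hEd]
    exact e_sum _ _
  have hqc : (q : ℂ) = ∏ _m : ι, (Q : ℂ)⁻¹ := by
    rw [hq, Finset.prod_const, Finset.card_univ]
    push_cast
    rw [inv_pow]
  have hmain := abs_var S q (((Q : ℝ) / J) ^ (md s * Fintype.card ι)) E
    (kp Q W T) (fun v => ∏ m, lam Q W T (v m)) (fun v => if ∀ m, v m = 0 then 1 else 0)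
    (fun f : Mon s → ι → ZMod Q => ∏ p, ∏ l, fj Q J (f p l))
    (fun (x : Fin s → 𝓞 K) f => qc ω Q f x) (fun x y => rr ω Q J x y)
    (by
      intro v
      rw [hqc, Finset.sum_congr rfl fun j _ => hEp j v,
        sum_prod_pi fun (m : ι) (a : ZMod Q) => (ZMod.stdAddChar (a * v m) : ℂ),
        ← Finset.prod_mul_distrib, Finset.prod_congr rfl fun m _ => (ind_eq (v m)).symm,
        Finset.prod_ite_zero]
      simp only [Finset.mem_univ, true_implies, Finset.prod_const_one]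
      split_ifs <;> simp)
    (by
      intro v
      have h1 : ∀ j : ι → ZMod Q, (kp Q W T j : ℂ) * E j v =
          ∏ m, ((kap Q W T (j m) : ℂ) * ZMod.stdAddChar (j m * v m)) := by
        intro j
        rw [hEp, kp, Complex.ofReal_prod, Finset.prod_mul_distrib]
      rw [Finset.sum_congr rfl fun j _ => h1 j,
        sum_prod_pi fun (m : ι) (a : ZMod Q) => (kap Q W T a : ℂ) * ZMod.stdAddChar (a * v m),
        hqc, ← Finset.prod_mul_distrib, Complex.ofReal_prod]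
      exact Finset.prod_congr rfl fun m _ => hl (v m))
    (by
      intro j
      exact ⟨Finset.prod_nonneg fun m _ => (hκ (j m)).1,
        Finset.prod_le_one (fun m _ => (hκ (j m)).1) fun m _ => (hκ (j m)).2⟩)
    (by
      intro x y j k
      exact Finset.prod_nonneg fun p _ => Finset.prod_nonneg fun l _ => (htri _).1)
    (by
      intro x y j k
      rw [← hEXF ι ω s Q J x y j k hJ hQ]
      refine Finset.sum_congr rfl fun f _ => ?_
      congr 1
      rw [hEd]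
      simp only
      rw [← AddChar.map_add_eq_mul, ← Finset.sum_add_distrib])
  have hL : ∀ F : Fin 2 → Mon s → ι → ZMod Q, nn ω Q S F - nl ω Q W T S F =
      ∑ x ∈ S, (∏ i, (fun v : ι → ZMod Q => if ∀ m, v m = 0 then (1 : ℝ) else 0)
        (qc ω Q (F i) x) - ∏ i, (fun v : ι → ZMod Q => ∏ m, lam Q W T (v m))
        (qc ω Q (F i) x)) := by
    intro F
    unfold Pool.Agent.H32.RK.nn Pool.Agent.H32.RK.nl
    rw [← Finset.sum_sub_distrib]
    refine Finset.sum_congr rfl fun x _ => ?_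
    congr 1
    simp only
    rw [Finset.prod_ite_zero]
    simp only [Finset.mem_univ, true_implies, Finset.prod_const_one]
  rw [Finset.sum_congr rfl fun F _ => by rw [hL F]]
  refine hmain.trans (le_of_eq ?_)
  have hc : (((Q : ℝ) / J) ^ (md s * Fintype.card ι)) ^ 2 =
      ((Q : ℝ) / J) ^ (2 * md s * Fintype.card ι) := by
    rw [← pow_mul]
    congr 1
    ring
  rw [hc]
  congr 1
  refine Finset.sum_congr rfl fun x _ => Finset.sum_congr rfl fun y _ => ?_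
  have hq2 : q ^ 2 = ((Q : ℝ) ^ (2 * Fintype.card ι))⁻¹ := by
    rw [hq, inv_pow, ← pow_mul, mul_comm (Fintype.card ι) 2]
  rw [hq2]
  unfold Pool.Agent.H32.RK.pk Pool.Agent.H32.RK.pp
  rw [div_eq_inv_mul, div_eq_inv_mul]

end Pool.Agent.H4.RK
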